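import Pool.Agent.H344R3.FB.NonReg

/-!
# The rules `x → x ^ (1 + m)`, `m ≥ 2`

Complete description of the words `w` for which `L(w)` is regular.
-/

set_option autoImplicit false

namespace Pool.Agent.W648.FB

open Pool.Agent.H344R3.FB

/-! ## The Thue–Morse word is overlap-free -/

/-- The Thue–Morse sequence: parity of the number of binary digits `1`. -/
def tm (n : ℕ) : Bool :=
  if h : n = 0 then false else xor (n % 2 == 1) (tm (n / 2))
decreasing_by exact Nat.div_lt_self (Nat.pos_of_ne_zero h) (by norm_num)

theorem tm_even (n : ℕ) : tm (2 * n) = tm n := by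
  rcases Nat.eq_zero_or_pos n with h | h
  · subst h; rfl
  · rw [tm, dif_neg (by omega)]
    have h1 : 2 * n % 2 = 0 := by omega
    have h2 : 2 * n / 2 = n := by omega
    rw [h1, h2]
    simp

theorem tm_odd (n : ℕ) : tm (2 * n + 1) = !(tm n) := by
  rw [tm, dif_neg (by omega)]
  have h1 : (2 * n + 1) % 2 = 1 := by omega
  have h2 : (2 * n + 1) / 2 = n := by omega
  rw [h1, h2]
  simp

theorem tm_ne (n : ℕ) : tm (2 * n) ≠ tm (2 * n + 1) := by
  rw [tm_even, tm_odd]
  cases tm n <;> simp

theorem flip_seq (f : ℕ → Bool) (j : ℕ) : ∀ p : ℕ, (∀ i < p, f (j + i) ≠ f (j + i + 1)) →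
    f (j + p) = xor (f j) (p % 2 == 1) := by
  intro p
  induction p with
  | zero => intro _; simp
  | succ p ih =>
    intro h
    have h1 := ih (fun i hi => h i (by omega))
    have h2 := h p (by omega)
    rw [h1] at h2
    rw [← Nat.add_assoc]
    have h3 : p % 2 = 0 ∨ p % 2 = 1 := by omega
    rcases h3 with h3 | h3
    · have h4 : (p + 1) % 2 = 1 := by omega
      rw [h3] at h2
      rw [h4]
      revert h2
      cases f j <;> cases f (j + p + 1) <;> simp
    · have h4 : (p + 1) % 2 = 0 := by omega
      rw [h3] at h2
      rw [h4]
      revert h2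
      cases f j <;> cases f (j + p + 1) <;> simp

/-- The Thue–Morse sequence has no overlaps. -/
theorem tm_overlap_free : ∀ p : ℕ, 0 < p → ∀ j : ℕ, ¬ ∀ i ≤ p, tm (j + i) = tm (j + i + p) := by
  intro p
  induction p using Nat.strong_induction_on with
  | _ p ih =>
    intro hp j h
    rcases Nat.even_or_odd' p with ⟨q, hq | hq⟩
    · -- even period
      have hq0 : 0 < q := by omega
      rcases Nat.even_or_odd' j with ⟨a, ha | ha⟩
      · refine ih q (by omega) hq0 a ?_
        intro i hi
        have h1 := h (2 * i) (by omega)
        rw [ha, hq, show 2 * a + 2 * i = 2 * (a + i) by ring, tm_even,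
          show 2 * (a + i) + 2 * q = 2 * (a + i + q) by ring, tm_even] at h1
        exact h1
      · refine ih q (by omega) hq0 a ?_
        intro i hi
        have h1 := h (2 * i) (by omega)
        rw [ha, hq, show 2 * a + 1 + 2 * i = 2 * (a + i) + 1 by ring, tm_odd,
          show 2 * (a + i) + 1 + 2 * q = 2 * (a + i + q) + 1 by ring, tm_odd] at h1
        simpa using h1
    · -- odd period
      have h0 := h 0 (by omega)
      have hfl := flip_seq tm j p (by
        intro i hi
        rcases Nat.even_or_odd' (j + i) with ⟨a, ha | ha⟩
        · rw [ha]; exact tm_ne a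
        · have h1 := h i (by omega)
          have h2 := h (i + 1) (by omega)
          rw [h1, show j + i + 1 = j + (i + 1) by ring, h2,
            show j + i + p = 2 * (a + q + 1) by omega,
            show j + (i + 1) + p = 2 * (a + q + 1) + 1 by omega]
          exact tm_ne _)
      have h3 : p % 2 = 1 := by omega
      rw [h3] at hfl
      simp only [Nat.add_zero] at h0
      rw [← h0] at hfl
      revert hfl
      cases tm j <;> simp

variable {α : Type*}

/-- The prefix of length `K` of the Thue–Morse word over the letters `a`, `b`. -/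
def tmw (a b : α) (K : ℕ) : List α := (List.range K).map fun i => if tm i then b else a

theorem tmw_length (a b : α) (K : ℕ) : (tmw a b K).length = K := by
  rw [tmw, List.length_map, List.length_range]

theorem tmw_get (a b : α) (K i : ℕ) (hi : i < K) :
    (tmw a b K)[i]? = some (if tm i then b else a) := by
  rw [tmw, List.getElem?_map, List.getElem?_range hi]
  rfl

theorem tmw_good (a b : α) (hab : a ≠ b) (K m : ℕ) (hm : 2 ≤ m) : Good 1 (1 + m) (tmw a b K) := by
  intro y f z he p hp hper
  have hlen : y.length + f.length + z.length = K := by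
    rw [← tmw_length a b K, he]; simp; omega
  by_cases hf : f.length ≤ 2 * p
  · nlinarith
  · exfalso
    push Not at hf
    have hget : ∀ i, i < f.length → f[i]? = some (if tm (y.length + i) then b else a) := by
      intro i hi
      rw [← tmw_get a b K (y.length + i) (by omega), he, List.append_assoc,
        List.getElem?_append_right (by omega), List.getElem?_append_left (by omega)]
      congr 1
      omega
    refine tm_overlap_free p hp y.length ?_
    intro i hi
    have h1 := hper i (by omega)
    rw [hget i (by omega), hget (i + p) (by omega), ← Nat.add_assoc] at h1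
    revert h1
    cases tm (y.length + i) <;> cases tm (y.length + i + p) <;> simp [hab, Ne.symm hab]

/-! ## Appending letters -/

theorem append_letters (m : ℕ) (hm : 0 < m) (w : List α) : ∀ t : List α, (∀ d ∈ t, d ∈ w) →
    ∃ z : List α, w ++ (t ++ z) ∈ Lang 1 m w := by
  intro t
  induction t using List.reverseRecOn with
  | nil =>
    intro _
    refine ⟨[], ?_⟩
    rw [List.nil_append, List.append_nil]
    exact Relation.ReflTransGen.refl
  | append_singleton t d ih =>
    intro ht
    obtain ⟨z, hz⟩ := ih (fun e he => ht e (by simp [he]))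
    obtain ⟨s, x, hsx⟩ := List.append_of_mem (ht d (by simp))
    -- the suffix `d :: x ++ t` of `w ++ t` is repeated
    obtain ⟨k, rfl⟩ : ∃ k, m = k + 1 := ⟨m - 1, by omega⟩
    refine ⟨(x ++ t) ++ pw (d :: x ++ t) k ++ z, ?_⟩
    refine Relation.ReflTransGen.tail hz ⟨s, d :: x ++ t, z, ?_, ?_⟩
    · rw [pw_one, hsx]; simp
    · rw [show 1 + (k + 1) = (k + 1) + 1 by ring, pw_succ, pw_succ]
      conv_lhs => rw [hsx]
      simp

/-- If `w` contains two different letters, then `L(w)` is not regular. -/
theorem not_regular_one (m : ℕ) (hm : 2 ≤ m) (w : List α) (a b : α) (ha : a ∈ w) (hb : b ∈ w)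
    (hab : a ≠ b) : ¬ (Lang 1 m w).IsRegular := by
  refine not_regular (c := 1) (by omega) (y0 := w) ?_
  intro K
  obtain ⟨z, hz⟩ := append_letters m (by omega) w (tmw a b K) (by
    intro d hd
    rw [tmw, List.mem_map] at hd
    obtain ⟨i, _, rfl⟩ := hd
    split_ifs
    · exact hb
    · exact ha)
  exact ⟨tmw a b K, z, by rw [tmw_length], tmw_good a b hab K m hm, hz⟩

/-! ## Words with at most one letter -/

theorem pw_replicate (a : α) (i k : ℕ) : pw (List.replicate i a) k = List.replicate (k * i) a := by
  rw [List.eq_replicate_iff]
  refine ⟨by rw [pw_length, List.length_replicate], ?_⟩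
  intro b hb
  rw [pw, List.mem_flatten] at hb
  obtain ⟨l, hl, hb⟩ := hb
  rw [List.eq_of_mem_replicate hl] at hb
  exact List.eq_of_mem_replicate hb

/-- A step on a power of one letter appends letters. -/
theorem step_replicate {m : ℕ} {a : α} {k : ℕ} {v : List α}
    (h : Step 1 m (List.replicate k a) v) :
    ∃ i, i ≤ k ∧ v = List.replicate (k + i * m) a := by
  obtain ⟨p, x, q, h1, h2⟩ := h
  rw [pw_one] at h1
  obtain ⟨e1, e2, e3⟩ := List.append_eq_replicate_iff.1 h1.symm
  obtain ⟨f1, f2, f3⟩ := List.append_eq_replicate_iff.1 e2
  refine ⟨x.length, by rw [List.length_append] at e1; omega, ?_⟩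
  rw [h2, f2, f3, e3, pw_replicate, ← List.replicate_add, ← List.replicate_add]
  congr 1
  rw [List.length_append] at e1
  simp only [List.length_replicate]
  rw [← e1]
  ring

theorem lang_replicate (m : ℕ) (a : α) (k : ℕ) (hk : 0 < k) :
    Lang 1 m (List.replicate k a) = {v | ∃ t, v = List.replicate (k + t * m) a} := by
  ext v
  constructor
  · intro h
    have h' : Relation.ReflTransGen (Step 1 m) (List.replicate k a) v := h
    show ∃ t, v = List.replicate (k + t * m) a
    clear h
    induction h' with
    | refl => exact ⟨0, by simp⟩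
    | tail _ h2 ih =>
      obtain ⟨t, rfl⟩ := ih
      obtain ⟨i, _, rfl⟩ := step_replicate h2
      exact ⟨t + i, by congr 1; ring⟩
  · rintro ⟨t, rfl⟩
    show Relation.ReflTransGen _ _ _
    induction t with
    | zero => simp only [Nat.zero_mul, Nat.add_zero]; exact Relation.ReflTransGen.refl
    | succ t ih =>
      refine ih.tail ⟨[], [a], List.replicate (k + t * m - 1) a, ?_, ?_⟩
      · rw [pw_one, List.nil_append, List.singleton_append, ← List.replicate_succ]
        congr 1
        omega
      · rw [List.nil_append, show [a] = List.replicate 1 a from rfl, pw_replicate,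
          ← List.replicate_add]
        congr 1
        have : 0 < k + t * m := by omega
        rw [Nat.succ_mul]
        omega

theorem lang_nil (m : ℕ) : Lang 1 m ([] : List α) = {v | v = []} := by
  ext v
  constructor
  · intro h
    have h' : Relation.ReflTransGen (Step 1 m) ([] : List α) v := h
    show v = []
    clear h
    induction h' with
    | refl => rfl
    | tail _ h2 ih =>
      subst ih
      obtain ⟨p, x, q, h1, rfl⟩ := h2
      rw [pw_one] at h1
      have hl := congrArg List.length h1
      simp only [List.length_append, List.length_nil] at hl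
      have hx : x = [] := List.length_eq_zero_iff.1 (by omega)
      have hp : p = [] := List.length_eq_zero_iff.1 (by omega)
      have hq : q = [] := List.length_eq_zero_iff.1 (by omega)
      subst hx hp hq
      simp
  · intro h
    have h' : v = [] := h
    subst h'
    exact Relation.ReflTransGen.refl

theorem regular_progression (m : ℕ) (hm : 0 < m) (a : α) (k : ℕ) :
    Language.IsRegular ({v | ∃ t, v = List.replicate (k + t * m) a} : Language α) := by
  refine Language.isRegular_iff_finite_range_leftQuotient.2 ?_
  set Q : ℕ × ℕ → Language α := fun cr =>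
    {u | ∃ i, u = List.replicate i a ∧ k ≤ cr.1 + i ∧ (cr.2 + i) % m = k % m} with hQ
  have hfin : (insert (∅ : Set (List α)) (Q '' (Set.Iic k ×ˢ Set.Iio m))).Finite :=
    (((Set.finite_Iic k).prod (Set.finite_Iio m)).image Q).insert _
  refine hfin.subset ?_
  rintro _ ⟨v, rfl⟩
  by_cases hv : v = List.replicate v.length a
  · right
    refine ⟨(min v.length k, v.length % m), ⟨by simp, Nat.mod_lt _ hm⟩, ?_⟩
    ext u
    constructor
    · rintro ⟨i, rfl, h1, h2⟩
      simp only at h1 h2
      show ∃ t, v ++ List.replicate i a = List.replicate (k + t * m) a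
      refine ⟨(v.length + i - k) / m, ?_⟩
      have h3 : k ≤ v.length + i := by omega
      have h4 : (v.length + i) % m = k % m := by
        rw [← h2, Nat.mod_add_mod]
      have h5 : (v.length + i - k) / m * m = v.length + i - k := by
        apply Nat.div_mul_cancel
        exact (Nat.modEq_iff_dvd' h3).1 h4.symm
      rw [h5, Nat.add_sub_cancel' h3, List.replicate_add, ← hv]
    · intro hu
      have hu' : ∃ t, v ++ u = List.replicate (k + t * m) a := hu
      obtain ⟨t, ht⟩ := hu'
      obtain ⟨e1, e2, e3⟩ := List.append_eq_replicate_iff.1 ht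
      refine ⟨u.length, e3, ?_, ?_⟩
      · simp only
        have : 0 ≤ t * m := Nat.zero_le _
        omega
      · simp only
        rw [Nat.mod_add_mod, e1, Nat.add_mul_mod_self_right]
  · left
    ext u
    constructor
    · intro hu
      have hu' : ∃ t, v ++ u = List.replicate (k + t * m) a := hu
      obtain ⟨t, ht⟩ := hu'
      exact absurd (List.append_eq_replicate_iff.1 ht).2.1 hv
    · intro hu
      exact hu.elim

theorem regular_unary (m : ℕ) (hm : 0 < m) (w : List α) (h : ∀ a ∈ w, ∀ b ∈ w, a = b) :
    (Lang 1 m w).IsRegular := by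
  rcases w with _ | ⟨a, w⟩
  · rw [lang_nil]
    refine Language.isRegular_iff_finite_range_leftQuotient.2 ?_
    refine ((Set.finite_singleton ({v | v = []} : Language α)).insert (∅ : Set (List α))).subset ?_
    rintro _ ⟨v, rfl⟩
    rcases v with _ | ⟨b, v⟩
    · right
      rfl
    · left
      ext u
      constructor
      · intro hu
        have hu' : b :: v ++ u = [] := hu
        simp at hu'
      · intro hu
        exact hu.elim
  · have hw : a :: w = List.replicate (w.length + 1) a := by
      rw [List.eq_replicate_iff]
      exact ⟨rfl, fun b hb => h b hb a (by simp)⟩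
    rw [hw, lang_replicate m a _ (Nat.succ_pos _)]
    exact regular_progression m hm a _

/-- For `m ≥ 2` the language `L(w)` of the rules `x → x ^ (1 + m)` is regular if and only if
`w` contains at most one letter. -/
theorem regular_iff (m : ℕ) (hm : 2 ≤ m) (w : List α) :
    (Lang 1 m w).IsRegular ↔ ∀ a ∈ w, ∀ b ∈ w, a = b := by
  constructor
  · intro h a ha b hb
    by_contra hab
    exact not_regular_one m hm w a b ha hb hab h
  · exact regular_unary m (by omega) w

end Pool.Agent.W648.FB
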